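import Pool.Agent.Q175.BK.Run

/-!
The difference between the greedy bucket number and the bucket number of a finite graph is
unbounded, even on graphs with bucket number at most 71.
-/

namespace Pool.Agent.Results.MP_196ef9_co.UnboundedGap

open Pool.Agent.Q175.BK

theorem result : ∀ C : ℝ, ∃ (V : Type) (_ : Fintype V) (_ : DecidableEq V) (G : SimpleGraph V),
    bucket G ≤ 71 ∧ C < gbucket G - bucket G :=
  unbounded

end Pool.Agent.Results.MP_196ef9_co.UnboundedGap
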